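import Mathlib
import Pool.Agent.Q14.MCN1124
import Pool.Agent.Q14.MCN2286
import Pool.Agent.Q14.MCN3852

set_option autoImplicit false

/-! # Further non-MC values of the Gauss circle counts -/

namespace Pool.Agent.Results.MP_b0ed8d_nt.MoreNonMCValues

open Pool.Agent.Q14.MC

/-- `g k` is the number of lattice points `(a, b)` with `a² + b² ≤ k²`. -/
noncomputable def g (k : ℕ) : ℕ := {p : ℤ × ℤ | p.1 ^ 2 + p.2 ^ 2 ≤ (k : ℤ) ^ 2}.ncard

theorem g_eq (k : ℕ) : g k = cnt 1 (k ^ 2 + 1) (k + 1) 0 1 0 1 := by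
  have h : {p : ℤ × ℤ | p.1 ^ 2 + p.2 ^ 2 ≤ (k : ℤ) ^ 2} = E 1 (k ^ 2 + 1) (0 : ℕ) (0 : ℕ) := by
    ext p
    rw [mem_E_succ]
    simp
  have h2 := E_encard 1 (k ^ 2 + 1) (k + 1) 0 0 (by norm_num) (by norm_num) (by nlinarith)
  unfold g
  rw [h, Set.ncard_def, h2]
  rfl

theorem g19 : g 19 = 1129 := by
  rw [g_eq]
  decide +kernel

theorem g27 : g 27 = 2289 := by
  rw [g_eq]
  decide +kernel

theorem g35 : g 35 = 3853 := by
  rw [g_eq]
  decide +kernel

/-- For `k = 19, 27, 35` the number `g k` (which is `1129`, `2289`, `3853`) is not an MC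
number. -/
theorem result : ∀ k ∈ ({19, 27, 35} : Finset ℕ), ¬ IsMC (g k) := by
  have h19 : ¬ IsMC (g 19) := by rw [g19]; exact N1124.not_mc_5
  have h27 : ¬ IsMC (g 27) := by rw [g27]; exact N2286.not_mc_3
  have h35 : ¬ IsMC (g 35) := by rw [g35]; exact N3852.not_mc_1
  intro k hk
  simp only [Finset.mem_insert, Finset.mem_singleton] at hk
  rcases hk with rfl | rfl | rfl
  · exact h19
  · exact h27
  · exact h35

end Pool.Agent.Results.MP_b0ed8d_nt.MoreNonMCValues
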